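import Mathlib
import Pool.Agent.Lib.H8.TruncPet

set_option autoImplicit false

namespace Pool.Agent.Results.MP_b9ebd9_co.TruncPetersen

theorem result : ∃ (G : SimpleGraph (Fin 12)) (_ : DecidableRel G.Adj),
    (∀ S : Finset (Fin 12), S.card < 3 → (G.induce ((↑S : Set (Fin 12))ᶜ)).Connected) ∧
    IsLeast {n : ℕ | ∃ (v : Fin 12) (p : G.Walk v v),
      (∀ e ∈ G.edgeSet, e ∈ p.edges) ∧ p.length = n} 24 ∧
    IsLeast {n : ℕ | ∃ F : List (Σ u : Fin 12, G.Walk u u), (∀ c ∈ F, c.2.IsCycle) ∧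
      (∀ e ∈ G.edgeSet, ∃ c ∈ F, e ∈ c.2.edges) ∧ (F.map fun c => c.2.length).sum = n} 24 ∧
    ∃ w : Sym2 (Fin 12) → ℕ, (∀ e ∈ G.edgeSet, w e = 1 ∨ w e = 2) ∧
      (∀ S : Finset (Fin 12), Even (∑ x ∈ S, ∑ y ∈ Sᶜ, if G.Adj x y then w s(x, y) else 0)) ∧
      ¬ ∃ F : List (Σ u : Fin 12, G.Walk u u), (∀ c ∈ F, c.2.IsCycle) ∧
        ∀ e ∈ G.edgeSet, F.countP (fun c => decide (e ∈ c.2.edges)) = w e := by
  refine ⟨Pool.Agent.Lib.H8.TruncPet.G, inferInstance, Pool.Agent.Lib.H8.TruncPet.conn3,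
    ⟨Pool.Agent.Lib.H8.TruncPet.tour_upper, ?_⟩, ⟨Pool.Agent.Lib.H8.TruncPet.cover_upper, ?_⟩,
    Pool.Agent.Lib.H8.TruncPet.w, fun e _ => Pool.Agent.Lib.H8.TruncPet.w_mem e,
    Pool.Agent.Lib.H8.TruncPet.w_euler, Pool.Agent.Lib.H8.TruncPet.no_cover⟩
  · rintro n ⟨v, p, h, rfl⟩
    exact Pool.Agent.Lib.H8.TruncPet.tour_lower v p h
  · rintro n ⟨F, -, h, rfl⟩
    exact Pool.Agent.Lib.H8.TruncPet.cover_lower F h

end Pool.Agent.Results.MP_b9ebd9_co.TruncPetersen
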